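import Pool.Agent.N838.BT.Stm

/-!
# Project BT (helper838): the binomial law in an infinite product
-/

set_option autoImplicit false

open MeasureTheory

namespace Pool.Agent.N865.BT

open N838.BT

/-- the binomial sum -/
noncomputable def G (r k : ℕ) (y : ℝ) : ℝ :=
  ∑ A ∈ (Finset.range k).powerset,
    if A.card < r then y ^ A.card * (1 - y) ^ (k - A.card) else 0

lemma G_eq (y : ℝ) : ∀ k r : ℕ, G r k y = F r k y := by
  intro k
  induction k with
  | zero =>
    intro r
    cases r with
    | zero => simp [G, F]
    | succ r => simp [G, F]
  | succ k ih =>
    intro r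
    cases r with
    | zero => simp [G, F]
    | succ r =>
      have h1 : G (r + 1) (k + 1) y = (1 - y) * G (r + 1) k y + y * G r k y := by
        unfold G
        rw [Finset.range_add_one, Finset.sum_powerset_insert Finset.notMem_range_self,
          Finset.mul_sum, Finset.mul_sum]
        congr 1
        · refine Finset.sum_congr rfl fun A hA => ?_
          have hc : A.card ≤ k := by
            have := Finset.card_le_card (Finset.mem_powerset.1 hA)
            rwa [Finset.card_range] at this
          split_ifs
          · have e : k + 1 - A.card = (k - A.card) + 1 := by omega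
            rw [e, pow_succ]
            ring
          · ring
        · refine Finset.sum_congr rfl fun A hA => ?_
          have hn : k ∉ A := fun h => by
            have := Finset.mem_powerset.1 hA h
            simp at this
          rw [Finset.card_insert_of_notMem hn]
          by_cases h : A.card < r
          · have h' : A.card + 1 < r + 1 := by omega
            have e : k + 1 - (A.card + 1) = k - A.card := by omega
            rw [if_pos h, if_pos h', e, pow_succ]
            ring
          · have h' : ¬ A.card + 1 < r + 1 := by omega
            rw [if_neg h, if_neg h', mul_zero]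
      rw [h1, ih, ih]
      rfl

open Classical in
theorem t_BIN : BIN := by
  intro Ω _ P _ Bad hBad r k
  rw [← G_eq]
  set μ := Measure.infinitePi fun _ : ℕ => P with hμ
  let Bx : Finset ℕ → Set (ℕ → Ω) := fun A =>
    Set.pi (Finset.range k : Set ℕ) fun i => if i ∈ A then Bad else Badᶜ
  have hm : ∀ (A : Finset ℕ) (i : ℕ), MeasurableSet (if i ∈ A then Bad else Badᶜ) := by
    intro A i
    split_ifs
    · exact hBad
    · exact hBad.compl
  have hBx : ∀ A ∈ (Finset.range k).powerset, ∀ ω, ω ∈ Bx A ↔
      (Finset.range k).filter (fun i => ω i ∈ Bad) = A := by
    intro A hA ω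
    have hA' := Finset.mem_powerset.1 hA
    constructor
    · intro h
      ext i
      rw [Finset.mem_filter]
      constructor
      · rintro ⟨hi, hb⟩
        have := h i (by exact_mod_cast hi)
        by_contra hn
        simp only [hn, if_false] at this
        exact this hb
      · intro hi
        have := h i (by exact_mod_cast hA' hi)
        simp only [hi, if_true] at this
        exact ⟨hA' hi, this⟩
    · intro h i hi
      have hi' : i ∈ Finset.range k := by exact_mod_cast hi
      by_cases hb : ω i ∈ Bad
      · have : i ∈ A := by
          rw [← h, Finset.mem_filter]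
          exact ⟨hi', hb⟩
        simp only [this, if_true]
        exact hb
      · have : i ∉ A := by
          intro hA2
          rw [← h, Finset.mem_filter] at hA2
          exact hb hA2.2
        simp only [this, if_false]
        exact hb
  have hE : {ω : ℕ → Ω | ((Finset.range k).filter fun i => ω i ∈ Bad).card < r} =
      ⋃ A ∈ (Finset.range k).powerset.filter (fun A => A.card < r), Bx A := by
    ext ω
    rw [Set.mem_ofPred_eq, Set.mem_iUnion₂]
    constructor
    · intro h
      refine ⟨(Finset.range k).filter (fun i => ω i ∈ Bad), Finset.mem_filter.2
        ⟨Finset.mem_powerset.2 (Finset.filter_subset _ _), h⟩, ?_⟩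
      exact (hBx _ (Finset.mem_powerset.2 (Finset.filter_subset _ _)) ω).2 rfl
    · rintro ⟨A, hA, hω⟩
      rw [Finset.mem_filter] at hA
      rw [(hBx A hA.1 ω).1 hω]
      exact hA.2
  have hval : ∀ A ∈ (Finset.range k).powerset,
      μ.real (Bx A) = (P.real Bad) ^ A.card * (1 - P.real Bad) ^ (k - A.card) := by
    intro A hA
    have hA' := Finset.mem_powerset.1 hA
    rw [measureReal_def, Measure.infinitePi_pi _ (fun i _ => hm A i), ENNReal.toReal_prod]
    have h1 : ∀ i ∈ Finset.range k, (P (if i ∈ A then Bad else Badᶜ)).toReal =
        if i ∈ A then P.real Bad else 1 - P.real Bad := by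
      intro i _
      split_ifs
      · rfl
      · exact probReal_compl_eq_one_sub hBad
    rw [Finset.prod_congr rfl h1, Finset.prod_ite, Finset.prod_const, Finset.prod_const]
    have e1 : (Finset.range k).filter (fun i => i ∈ A) = A := by
      rw [Finset.filter_mem_eq_inter, Finset.inter_eq_right.2 hA']
    have e2 : ((Finset.range k).filter (fun i => i ∉ A)).card = k - A.card := by
      have := Finset.card_filter_add_card_filter_not (s := Finset.range k) (p := fun i => i ∈ A)
      rw [e1, Finset.card_range] at this
      omega
    rw [e1, e2]
  rw [hE, measureReal_biUnion_finset]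
  · unfold G
    rw [← Finset.sum_filter]
    refine Finset.sum_congr rfl fun A hA => ?_
    exact hval A (Finset.mem_filter.1 hA).1
  · intro A hA B hB hAB
    rw [Function.onFun, Set.disjoint_left]
    intro ω h1 h2
    apply hAB
    rw [← (hBx A (Finset.mem_filter.1 (by exact_mod_cast hA)).1 ω).1 h1,
      (hBx B (Finset.mem_filter.1 (by exact_mod_cast hB)).1 ω).1 h2]
  · intro A _
    exact MeasurableSet.pi (Finset.countable_toSet _) fun i _ => hm A i

end Pool.Agent.N865.BT
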